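import Mathlib

set_option autoImplicit false

/-!
R-sequencings, and groups with a cyclic subgroup of index two complemented by an involution.
-/

namespace Pool.Agent.Q100.RSeq

/-- `x 0, …, x (N - 1)` is an R-sequencing of `G`: it lists each non-identity element of `G`
exactly once, and the `N` cyclically consecutive quotients `(x i)⁻¹ * x (i + 1)` (indices modulo
`N`) are pairwise distinct. -/
def IsRSequencing (G : Type*) [Group G] (N : ℕ) (x : ℕ → G) : Prop :=
  (∀ i < N, x i ≠ 1) ∧ (∀ g : G, g ≠ 1 → ∃ i < N, x i = g) ∧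
    (∀ i < N, ∀ j < N, x i = x j → i = j) ∧
    (∀ i < N, ∀ j < N, (x i)⁻¹ * x ((i + 1) % N) = (x j)⁻¹ * x ((j + 1) % N) → i = j)

/-- A finite group `G` is R-sequenceable if its `|G| - 1` non-identity elements have an
R-sequencing. -/
def RSequenceable (G : Type*) [Group G] : Prop :=
  Finite G ∧ ∃ x : ℕ → G, IsRSequencing G (Nat.card G - 1) x

/-- The group is generated by `a` of order `M` and an involution `b ∉ ⟨a⟩` with
`b a b⁻¹ = a ^ r`. -/
structure Frame {G : Type*} [Group G] (M : ℕ) (r : ℤ) (a b : G) : Prop where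
  pos : 0 < M
  hr : (M : ℤ) ∣ r * r - 1
  ha : ∀ x : ℤ, a ^ x = 1 ↔ (M : ℤ) ∣ x
  hb : b * b = 1
  hab : b * a * b⁻¹ = a ^ r
  hnot : ∀ x : ℤ, a ^ x ≠ b
  hall : ∀ g : G, (∃ x : ℤ, g = a ^ x) ∨ (∃ x : ℤ, g = a ^ x * b)

namespace Frame

variable {G : Type*} [Group G] {M : ℕ} {r : ℤ} {a b : G}

theorem A_eq (F : Frame M r a b) {x y : ℤ} : a ^ x = a ^ y ↔ (M : ℤ) ∣ x - y := by
  rw [← F.ha, zpow_sub, mul_inv_eq_one]

theorem B_eq (F : Frame M r a b) {x y : ℤ} : a ^ x * b = a ^ y * b ↔ (M : ℤ) ∣ x - y := by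
  rw [mul_left_inj, F.A_eq]

theorem AB_ne (F : Frame M r a b) (x y : ℤ) : a ^ x ≠ a ^ y * b := by
  intro h
  apply F.hnot (x - y)
  rw [sub_eq_neg_add, zpow_add, h, zpow_neg]
  group

theorem binv (F : Frame M r a b) : b⁻¹ = b := inv_eq_of_mul_eq_one_left F.hb

theorem conj (F : Frame M r a b) (x : ℤ) : b * a ^ x = a ^ (r * x) * b := by
  have h : b * a ^ x * b⁻¹ = a ^ (r * x) := by
    rw [← conj_zpow, F.hab, zpow_mul]
  rw [← h]
  group

theorem AA (x y : ℤ) : (a ^ x)⁻¹ * a ^ y = a ^ (y - x) := by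
  rw [← zpow_neg, ← zpow_add]
  congr 1
  ring

theorem qAB (x y : ℤ) : (a ^ x)⁻¹ * (a ^ y * b) = a ^ (y - x) * b := by
  rw [← mul_assoc, AA]

theorem qBA (F : Frame M r a b) (x y : ℤ) :
    (a ^ x * b)⁻¹ * a ^ y = a ^ (r * (y - x)) * b := by
  rw [mul_inv_rev, F.binv, mul_assoc, AA, F.conj]

theorem qBB (F : Frame M r a b) (x y : ℤ) :
    (a ^ x * b)⁻¹ * (a ^ y * b) = a ^ (r * (y - x)) := by
  rw [← mul_assoc, F.qBA, mul_assoc, F.hb, mul_one]

/-- The normal form as a map. -/
def nf (a b : G) (M : ℕ) (p : Bool × Fin M) : G :=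
  if p.1 then a ^ ((p.2 : ℕ) : ℤ) * b else a ^ ((p.2 : ℕ) : ℤ)

theorem nf_bij (F : Frame M r a b) : Function.Bijective (nf a b M) := by
  have key : ∀ i j : Fin M, (M : ℤ) ∣ ((i : ℕ) : ℤ) - ((j : ℕ) : ℤ) → i = j := by
    intro i j h
    have hi := i.2
    have hj := j.2
    have : ((i : ℕ) : ℤ) - ((j : ℕ) : ℤ) = 0 := by
      apply Int.eq_zero_of_abs_lt_dvd h
      rw [abs_lt]
      constructor <;> omega
    apply Fin.ext
    omega
  constructor
  · rintro ⟨e, i⟩ ⟨f, j⟩ h
    cases e <;> cases f <;> simp only [nf, Bool.false_eq_true, if_true, if_false] at h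
    · rw [F.A_eq] at h
      rw [key i j h]
    · exact absurd h (F.AB_ne _ _)
    · exact absurd h.symm (F.AB_ne _ _)
    · rw [F.B_eq] at h
      rw [key i j h]
  · intro g
    have hM : (0 : ℤ) < M := by exact_mod_cast F.pos
    have key2 : ∀ x : ℤ, ∃ i : Fin M, (M : ℤ) ∣ ((i : ℕ) : ℤ) - x := by
      intro x
      have h0 := Int.emod_nonneg x hM.ne'
      have h1 := Int.emod_lt_of_pos x hM
      refine ⟨⟨(x % M).toNat, by omega⟩, ?_⟩
      have h2 : (((x % M).toNat : ℕ) : ℤ) = x % M := Int.toNat_of_nonneg h0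
      simp only
      rw [h2]
      exact (Int.emod_emod_of_dvd x dvd_rfl : x % M % M = x % M) ▸ by
        rw [Int.dvd_iff_emod_eq_zero, Int.sub_emod, Int.emod_emod_of_dvd x dvd_rfl]
        simp
    rcases F.hall g with ⟨x, hx⟩ | ⟨x, hx⟩
    · obtain ⟨i, hi⟩ := key2 x
      refine ⟨(false, i), ?_⟩
      simp only [nf, Bool.false_eq_true, if_false]
      rw [hx, F.A_eq]
      exact hi
    · obtain ⟨i, hi⟩ := key2 x
      refine ⟨(true, i), ?_⟩
      simp only [nf, if_true]
      rw [hx, F.B_eq]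
      exact hi

theorem card (F : Frame M r a b) : Nat.card G = 2 * M := by
  have h := Nat.card_congr (Equiv.ofBijective _ F.nf_bij)
  rw [← h, Nat.card_prod]
  simp

theorem finite (F : Frame M r a b) : Finite G :=
  Finite.of_equiv _ (Equiv.ofBijective _ F.nf_bij)

end Frame

/-- The counting step: distinctness of the entries implies that all non-identity elements occur. -/
theorem isRSequencing_of_inj {G : Type*} [Group G] [Finite G] {N : ℕ} (hN : N = Nat.card G - 1)
    (x : ℕ → G) (h1 : ∀ i < N, x i ≠ 1) (h2 : ∀ i < N, ∀ j < N, x i = x j → i = j)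
    (h3 : ∀ i < N, ∀ j < N, (x i)⁻¹ * x ((i + 1) % N) = (x j)⁻¹ * x ((j + 1) % N) → i = j) :
    IsRSequencing G N x := by
  classical
  have := Fintype.ofFinite G
  refine ⟨h1, ?_, h2, h3⟩
  have hsub : (Finset.range N).image x ⊆ Finset.univ.erase 1 := by
    intro g hg
    obtain ⟨i, hi, rfl⟩ := Finset.mem_image.1 hg
    simp [h1 i (Finset.mem_range.1 hi)]
  have hcard : ((Finset.range N).image x).card = N := by
    rw [Finset.card_image_of_injOn, Finset.card_range]
    intro i hi j hj h
    exact h2 i (by simpa using hi) j (by simpa using hj) h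
  have heq : (Finset.range N).image x = Finset.univ.erase 1 := by
    apply Finset.eq_of_subset_of_card_le hsub
    rw [hcard, Finset.card_erase_of_mem (Finset.mem_univ _), Finset.card_univ, hN,
      Nat.card_eq_fintype_card]
  intro g hg
  have : g ∈ (Finset.range N).image x := by
    rw [heq]
    simp [hg]
  obtain ⟨i, hi, h⟩ := Finset.mem_image.1 this
  exact ⟨i, Finset.mem_range.1 hi, h⟩

/-- The relations of the presentation `⟨a, b | a ^ M, b ^ 2, b a b⁻¹ = a ^ r⟩`. -/
def rels (M : ℕ) (r : ℕ) : Set (FreeGroup (Fin 2)) :=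
  {FreeGroup.of 0 ^ M, FreeGroup.of 1 ^ 2,
    FreeGroup.of 1 * FreeGroup.of 0 * (FreeGroup.of 1)⁻¹ * (FreeGroup.of 0 ^ r)⁻¹}

section Model

variable (M r : ℕ)

/-- Translation by one. -/
def tr : Equiv.Perm (ZMod M) := Equiv.addRight 1

theorem tr_zpow (k : ℤ) (x : ZMod M) : (tr M ^ k) x = x + k := by
  have hnat : ∀ (n : ℕ) (x : ZMod M), (tr M ^ n) x = x + n := by
    intro n
    induction n with
    | zero => intro x; simp
    | succ n ih =>
      intro x
      rw [pow_succ', Equiv.Perm.mul_apply, ih]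
      simp [tr, add_assoc]
  cases k with
  | ofNat n => simpa using hnat n x
  | negSucc n =>
    rw [zpow_negSucc, Equiv.Perm.inv_eq_iff_eq, hnat]
    push_cast
    ring

/-- Multiplication by `r`, where `r² = 1`. -/
def mu (h : ((r : ZMod M)) * r = 1) : Equiv.Perm (ZMod M) where
  toFun x := r * x
  invFun x := r * x
  left_inv x := by
    show (r : ZMod M) * (r * x) = x
    rw [← mul_assoc, h, one_mul]
  right_inv x := by
    show (r : ZMod M) * (r * x) = x
    rw [← mul_assoc, h, one_mul]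

theorem presented_frame (hM : 0 < M) (hr : (M : ℤ) ∣ (r : ℤ) * r - 1) (hr1 : ¬ (M : ℤ) ∣ (r : ℤ) - 1) :
    Frame (G := PresentedGroup (rels M r)) M r (PresentedGroup.of 0) (PresentedGroup.of 1) := by
  have h : ((r : ZMod M)) * r = 1 := by
    have := (ZMod.intCast_zmod_eq_zero_iff_dvd ((r : ℤ) * r - 1) M).2 hr
    push_cast at this
    exact sub_eq_zero.1 this
  have hne : (r : ZMod M) ≠ 1 := by
    intro h1
    apply hr1
    rw [← ZMod.intCast_zmod_eq_zero_iff_dvd]
    push_cast
    rw [h1, sub_self]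
  -- the homomorphism to the affine group
  let f : Fin 2 → Equiv.Perm (ZMod M) := ![tr M, mu M r h]
  have hf : ∀ w ∈ rels M r, FreeGroup.lift f w = 1 := by
    intro w hw
    rcases hw with rfl | rfl | rfl
    · simp only [map_pow, FreeGroup.lift_apply_of]
      apply Equiv.ext
      intro x
      have := tr_zpow M (M : ℤ) x
      rw [zpow_natCast] at this
      show (tr M ^ M) x = x
      rw [this]
      simp
    · simp only [map_pow, FreeGroup.lift_apply_of]
      apply Equiv.ext
      intro x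
      show (r : ZMod M) * (r * x) = x
      rw [← mul_assoc, h, one_mul]
    · simp only [map_mul, map_pow, map_inv, FreeGroup.lift_apply_of]
      rw [mul_inv_eq_one, mul_inv_eq_iff_eq_mul]
      apply Equiv.ext
      intro x
      have := tr_zpow M (r : ℤ) ((r : ZMod M) * x)
      rw [zpow_natCast] at this
      show (r : ZMod M) * (x + 1) = (tr M ^ r) ((r : ZMod M) * x)
      rw [this]
      push_cast
      ring
  let φ : PresentedGroup (rels M r) →* Equiv.Perm (ZMod M) := PresentedGroup.toGroup hf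
  have φa : φ (PresentedGroup.of 0) = tr M := PresentedGroup.toGroup.of hf
  have φb : φ (PresentedGroup.of 1) = mu M r h := PresentedGroup.toGroup.of hf
  have relA : (PresentedGroup.of 0 : PresentedGroup (rels M r)) ^ M = 1 := by
    have := PresentedGroup.one_of_mem (rels := rels M r) (x := FreeGroup.of 0 ^ M) (by simp [rels])
    rw [map_pow] at this
    exact this
  have relB : (PresentedGroup.of 1 : PresentedGroup (rels M r)) ^ 2 = 1 := by
    have := PresentedGroup.one_of_mem (rels := rels M r) (x := FreeGroup.of 1 ^ 2) (by simp [rels])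
    rw [map_pow] at this
    exact this
  have relC : (PresentedGroup.of 1 : PresentedGroup (rels M r)) * PresentedGroup.of 0 *
      (PresentedGroup.of 1)⁻¹ = PresentedGroup.of 0 ^ r := by
    have := PresentedGroup.one_of_mem (rels := rels M r)
      (x := FreeGroup.of 1 * FreeGroup.of 0 * (FreeGroup.of 1)⁻¹ * (FreeGroup.of 0 ^ r)⁻¹)
      (by simp [rels])
    rw [map_mul, map_inv, mul_inv_eq_one, map_mul, map_mul, map_inv, map_pow] at this
    exact this
  have hB : (PresentedGroup.of 1 : PresentedGroup (rels M r)) * PresentedGroup.of 1 = 1 := by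
    rw [← pow_two]; exact relB
  have hBinv : (PresentedGroup.of 1 : PresentedGroup (rels M r))⁻¹ = PresentedGroup.of 1 :=
    inv_eq_of_mul_eq_one_left hB
  have hconj : ∀ x : ℤ, (PresentedGroup.of 1 : PresentedGroup (rels M r)) * PresentedGroup.of 0 ^ x
      = PresentedGroup.of 0 ^ ((r : ℤ) * x) * PresentedGroup.of 1 := by
    intro x
    have h : (PresentedGroup.of 1 : PresentedGroup (rels M r)) * PresentedGroup.of 0 ^ x *
        (PresentedGroup.of 1)⁻¹ = PresentedGroup.of 0 ^ ((r : ℤ) * x) := by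
      rw [← conj_zpow, relC, zpow_mul, zpow_natCast]
    rw [← h]
    group
  refine ⟨hM, hr, ?_, hB, ?_, ?_, ?_⟩
  · intro x
    constructor
    · intro hx
      have h1 : (tr M ^ x) 0 = 0 := by
        rw [← φa, ← map_zpow, hx, map_one]; rfl
      rw [tr_zpow, zero_add] at h1
      exact (ZMod.intCast_zmod_eq_zero_iff_dvd x M).1 h1
    · rintro ⟨k, rfl⟩
      rw [zpow_mul, zpow_natCast, relA, one_zpow]
  · rw [relC, zpow_natCast]
  · intro x hx
    have h1 : tr M ^ x = mu M r h := by
      rw [← φa, ← φb, ← map_zpow, hx]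
    have h2 : (x : ZMod M) = 0 := by
      have := DFunLike.congr_fun h1 0
      rw [tr_zpow, zero_add] at this
      rw [this]
      show (r : ZMod M) * 0 = 0
      simp
    have h3 := DFunLike.congr_fun h1 1
    rw [tr_zpow, h2, add_zero] at h3
    apply hne
    rw [h3]
    show (r : ZMod M) = r * 1
    simp
  · intro g
    have hg : g ∈ Subgroup.closure (Set.range (PresentedGroup.of (rels := rels M r))) := by
      rw [PresentedGroup.closure_range_of]; trivial
    induction hg using Subgroup.closure_induction with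
    | mem x hx =>
      obtain ⟨i, rfl⟩ := hx
      fin_cases i
      · left; exact ⟨1, by simp⟩
      · right; exact ⟨0, by simp⟩
    | one => left; exact ⟨0, by simp⟩
    | mul x y _ _ hx hy =>
      rcases hx with ⟨x, rfl⟩ | ⟨x, rfl⟩ <;> rcases hy with ⟨y, rfl⟩ | ⟨y, rfl⟩
      · left; exact ⟨x + y, by rw [zpow_add]⟩
      · right; exact ⟨x + y, by rw [zpow_add, mul_assoc]⟩
      · right
        refine ⟨x + r * y, ?_⟩
        rw [mul_assoc, hconj, zpow_add, mul_assoc]
      · left
        refine ⟨x + r * y, ?_⟩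
        rw [mul_assoc, ← mul_assoc (PresentedGroup.of 1), hconj, mul_assoc (PresentedGroup.of 0 ^ _),
          hB, mul_one, zpow_add]
    | inv x _ hx =>
      rcases hx with ⟨x, rfl⟩ | ⟨x, rfl⟩
      · left; exact ⟨-x, by rw [zpow_neg]⟩
      · right
        refine ⟨(r : ℤ) * (-x), ?_⟩
        rw [mul_inv_rev, hBinv, ← zpow_neg, hconj]

end Model

end Pool.Agent.Q100.RSeq
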