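import Pool.Agent.Q100.RSeq.Basic

set_option autoImplicit false

/-!
The semidihedral case: the sequence is assembled from a function `Y : ℤ → ℤ`.
-/

namespace Pool.Agent.Q100.RSeq.Semi

open Pool.Agent.Q100.RSeq

variable {G : Type*} [Group G]

/-- The sequence. -/
def sq (a b : G) (J : ℕ) (Y : ℤ → ℤ) (k : ℕ) : G :=
  if k < 8 * J - 4 then
    (if k % 4 = 0 then a ^ (((k / 4 : ℕ) : ℤ) + 1)
     else if k % 4 = 1 then a ^ (-(((k / 4 : ℕ) : ℤ) + 1))
     else if k % 4 = 2 then a ^ (Y (((k / 4 : ℕ) : ℤ) + 1)) * b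
     else a ^ (1 - Y (((k / 4 : ℕ) : ℤ) + 1)) * b)
  else if k = 8 * J - 4 then a ^ (2 * (J : ℤ))
  else if k = 8 * J - 3 then a ^ (Y (2 * (J : ℤ))) * b
  else a ^ (1 - Y (2 * (J : ℤ))) * b

section

variable (a b : G) (J : ℕ) (Y : ℤ → ℤ)

theorem sq0 (hJ : 1 ≤ J) (i : ℕ) (hi : i < 2 * J) : sq a b J Y (4 * i) = a ^ ((i : ℤ) + 1) := by
  unfold sq
  by_cases h : 4 * i < 8 * J - 4
  · rw [if_pos h, if_pos (by omega), show 4 * i / 4 = i by omega]
  · rw [if_neg h, if_pos (by omega)]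
    congr 1
    omega

theorem sq1 (i : ℕ) (hi : i + 1 < 2 * J) :
    sq a b J Y (4 * i + 1) = a ^ (-((i : ℤ) + 1)) := by
  unfold sq
  rw [if_pos (by omega), if_neg (by omega), if_pos (by omega), show (4 * i + 1) / 4 = i by omega]

theorem sq2 (i : ℕ) (hi : i + 1 < 2 * J) :
    sq a b J Y (4 * i + 2) = a ^ (Y ((i : ℤ) + 1)) * b := by
  unfold sq
  rw [if_pos (by omega), if_neg (by omega), if_neg (by omega), if_pos (by omega),
    show (4 * i + 2) / 4 = i by omega]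

theorem sq3 (i : ℕ) (hi : i + 1 < 2 * J) :
    sq a b J Y (4 * i + 3) = a ^ (1 - Y ((i : ℤ) + 1)) * b := by
  unfold sq
  rw [if_pos (by omega), if_neg (by omega), if_neg (by omega), if_neg (by omega),
    show (4 * i + 3) / 4 = i by omega]

theorem sq5 (hJ : 1 ≤ J) : sq a b J Y (8 * J - 3) = a ^ (Y (2 * (J : ℤ))) * b := by
  unfold sq
  rw [if_neg (by omega), if_neg (by omega), if_pos rfl]

theorem sq6 (hJ : 1 ≤ J) : sq a b J Y (8 * J - 2) = a ^ (1 - Y (2 * (J : ℤ))) * b := by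
  unfold sq
  rw [if_neg (by omega), if_neg (by omega), if_neg (by omega)]

end

theorem cases7 (J : ℕ) (hJ : 1 ≤ J) (k : ℕ) (hk : k < 8 * J - 1) :
    (∃ i, i + 1 < 2 * J ∧ k = 4 * i) ∨ (∃ i, i + 1 < 2 * J ∧ k = 4 * i + 1) ∨
    (∃ i, i + 1 < 2 * J ∧ k = 4 * i + 2) ∨ (∃ i, i + 1 < 2 * J ∧ k = 4 * i + 3) ∨
    k = 8 * J - 4 ∨ k = 8 * J - 3 ∨ k = 8 * J - 2 := by
  by_cases h : k < 8 * J - 4
  · have h4 : k % 4 = 0 ∨ k % 4 = 1 ∨ k % 4 = 2 ∨ k % 4 = 3 := by omega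
    rcases h4 with h4 | h4 | h4 | h4
    · left; exact ⟨k / 4, by omega, by omega⟩
    · right; left; exact ⟨k / 4, by omega, by omega⟩
    · right; right; left; exact ⟨k / 4, by omega, by omega⟩
    · right; right; right; left; exact ⟨k / 4, by omega, by omega⟩
  · omega

/-- The values of the sequence. -/
theorem xcases (a b : G) (J : ℕ) (hJ : 1 ≤ J) (Y : ℤ → ℤ) (k : ℕ) (hk : k < 8 * J - 1) :
    (∃ i : ℕ, i < 2 * J ∧ k = 4 * i ∧ sq a b J Y k = a ^ ((i : ℤ) + 1)) ∨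
    (∃ i : ℕ, i + 1 < 2 * J ∧ k = 4 * i + 1 ∧ sq a b J Y k = a ^ (-((i : ℤ) + 1))) ∨
    (∃ i : ℕ, i < 2 * J ∧ (i + 1 < 2 * J → k = 4 * i + 2) ∧ (i + 1 = 2 * J → k = 4 * i + 1) ∧
      sq a b J Y k = a ^ (Y ((i : ℤ) + 1)) * b) ∨
    (∃ i : ℕ, i < 2 * J ∧ (i + 1 < 2 * J → k = 4 * i + 3) ∧ (i + 1 = 2 * J → k = 4 * i + 2) ∧
      sq a b J Y k = a ^ (1 - Y ((i : ℤ) + 1)) * b) := by
  rcases cases7 J hJ k hk with ⟨i, hi, rfl⟩ | ⟨i, hi, rfl⟩ | ⟨i, hi, rfl⟩ | ⟨i, hi, rfl⟩ | rfl | rfl | rfl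
  · left; exact ⟨i, by omega, rfl, sq0 a b J Y hJ i (by omega)⟩
  · right; left; exact ⟨i, by omega, rfl, sq1 a b J Y i hi⟩
  · right; right; left; exact ⟨i, by omega, by omega, by omega, sq2 a b J Y i hi⟩
  · right; right; right; exact ⟨i, by omega, by omega, by omega, sq3 a b J Y i hi⟩
  · left
    refine ⟨2 * J - 1, by omega, by omega, ?_⟩
    rw [show 8 * J - 4 = 4 * (2 * J - 1) by omega]
    exact sq0 a b J Y hJ _ (by omega)
  · right; right; left
    refine ⟨2 * J - 1, by omega, by omega, by omega, ?_⟩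
    rw [sq5 a b J Y hJ]
    congr 3
    omega
  · right; right; right
    refine ⟨2 * J - 1, by omega, by omega, by omega, ?_⟩
    rw [sq6 a b J Y hJ]
    congr 4
    omega

/-- The quotients of the sequence. -/
theorem qcases (a b : G) (J : ℕ) (hJ : 1 ≤ J) {r : ℤ} (F : Frame (4 * J) r a b) (Y : ℤ → ℤ)
    (hY : Y (2 * (J : ℤ)) = 2 * J) (k : ℕ) (hk : k < 8 * J - 1) :
    (∃ i : ℕ, i + 1 < 2 * J ∧ k = 4 * i ∧
      (sq a b J Y k)⁻¹ * sq a b J Y ((k + 1) % (8 * J - 1)) = a ^ (-(2 * ((i : ℤ) + 1)))) ∨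
    (∃ i : ℕ, i < 2 * J ∧ (i + 1 < 2 * J → k = 4 * i + 2) ∧ (i + 1 = 2 * J → k = 4 * i + 1) ∧
      (sq a b J Y k)⁻¹ * sq a b J Y ((k + 1) % (8 * J - 1)) = a ^ (r * (1 - 2 * Y ((i : ℤ) + 1)))) ∨
    (∃ i : ℕ, i + 1 < 2 * J ∧ k = 4 * i + 1 ∧
      (sq a b J Y k)⁻¹ * sq a b J Y ((k + 1) % (8 * J - 1)) =
        a ^ (Y ((i : ℤ) + 1) + ((i : ℤ) + 1)) * b) ∨
    (∃ i : ℕ, i + 1 < 2 * J ∧ k = 4 * i + 3 ∧
      (sq a b J Y k)⁻¹ * sq a b J Y ((k + 1) % (8 * J - 1)) =
        a ^ (r * (Y ((i : ℤ) + 1) + ((i : ℤ) + 1))) * b) ∨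
    (k = 8 * J - 4 ∧
      (sq a b J Y k)⁻¹ * sq a b J Y ((k + 1) % (8 * J - 1)) = a ^ (0 : ℤ) * b) ∨
    (k = 8 * J - 2 ∧
      (sq a b J Y k)⁻¹ * sq a b J Y ((k + 1) % (8 * J - 1)) = a ^ (r * (2 * J)) * b) := by
  rcases cases7 J hJ k hk with ⟨i, hi, rfl⟩ | ⟨i, hi, rfl⟩ | ⟨i, hi, rfl⟩ | ⟨i, hi, rfl⟩ | rfl | rfl | rfl
  · left
    refine ⟨i, hi, rfl, ?_⟩
    rw [Nat.mod_eq_of_lt (by omega), sq0 a b J Y hJ i (by omega), sq1 a b J Y i hi, Frame.AA]
    congr 1
    ring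
  · right; right; left
    refine ⟨i, hi, rfl, ?_⟩
    rw [Nat.mod_eq_of_lt (by omega), sq1 a b J Y i hi, sq2 a b J Y i hi, Frame.qAB]
    congr 2
  · right; left
    refine ⟨i, by omega, by omega, by omega, ?_⟩
    rw [Nat.mod_eq_of_lt (by omega), sq2 a b J Y i hi, sq3 a b J Y i hi, F.qBB]
    congr 1
    ring
  · right; right; right; left
    refine ⟨i, hi, rfl, ?_⟩
    rw [Nat.mod_eq_of_lt (by omega), show 4 * i + 3 + 1 = 4 * (i + 1) by ring, sq3 a b J Y i hi,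
      sq0 a b J Y hJ (i + 1) (by omega), F.qBA]
    congr 2
    push_cast
    ring
  · right; right; right; right; left
    refine ⟨rfl, ?_⟩
    rw [Nat.mod_eq_of_lt (by omega), show 8 * J - 4 + 1 = 8 * J - 3 by omega, sq5 a b J Y hJ,
      show 8 * J - 4 = 4 * (2 * J - 1) by omega, sq0 a b J Y hJ _ (by omega), Frame.qAB, hY]
    congr 2
    omega
  · right; left
    refine ⟨2 * J - 1, by omega, by omega, by omega, ?_⟩
    rw [Nat.mod_eq_of_lt (by omega), show 8 * J - 3 + 1 = 8 * J - 2 by omega, sq5 a b J Y hJ,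
      sq6 a b J Y hJ, F.qBB, show (((2 * J - 1 : ℕ) : ℤ) + 1) = 2 * J by omega]
    congr 1
    ring
  · right; right; right; right; right
    refine ⟨rfl, ?_⟩
    rw [show 8 * J - 2 + 1 = 8 * J - 1 by omega, Nat.mod_self, sq6 a b J Y hJ]
    have := sq0 a b J Y hJ 0 (by omega)
    rw [mul_zero] at this
    rw [this, F.qBA, hY]
    congr 2
    push_cast
    ring

theorem small_dvd {M d : ℤ} (h : M ∣ d) (h1 : -M < d) (h2 : d < M) : d = 0 := by
  apply Int.eq_zero_of_abs_lt_dvd h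
  rw [abs_lt]
  exact ⟨h1, h2⟩

/-- The main step. -/
theorem main {a b : G} {J : ℕ} (hJ : 1 ≤ J) {r : ℤ} (F : Frame (4 * J) r a b)
    (Y : ℤ → ℤ) (hY : Y (2 * (J : ℤ)) = 2 * J)
    (h1 : ∀ i j : ℤ, 1 ≤ i → i ≤ 2 * J → 1 ≤ j → j ≤ 2 * J → (2 * (J : ℤ)) ∣ Y i - Y j → i = j)
    (h2 : ∀ i j : ℤ, 1 ≤ i → i ≤ 2 * J → 1 ≤ j → j ≤ 2 * J → ¬ (4 * (J : ℤ)) ∣ Y i + Y j - 1)
    (h3 : ∀ i j : ℤ, 1 ≤ i → i < 2 * J → 1 ≤ j → j < 2 * J →
      (4 * (J : ℤ)) ∣ (Y i + i) - (Y j + j) → i = j)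
    (h4 : ∀ i : ℤ, 1 ≤ i → i < 2 * J → ¬ (2 * (J : ℤ)) ∣ Y i + i)
    (h5 : ∀ i j : ℤ, 1 ≤ i → i < 2 * J → 1 ≤ j → j < 2 * J →
      ¬ (4 * (J : ℤ)) ∣ (Y i + i) - r * (Y j + j)) :
    RSequenceable G := by
  have hfin := F.finite
  have hcard : Nat.card G - 1 = 8 * J - 1 := by rw [F.card]; omega
  refine ⟨hfin, sq a b J Y, isRSequencing_of_inj rfl _ ?_ ?_ ?_⟩
  · -- no entry is the identity
    rw [hcard]
    intro k hk h
    have hone : (1 : G) = a ^ (0 : ℤ) := by simp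
    rw [hone] at h
    rcases xcases a b J hJ Y k hk with ⟨i, hi, -, hx⟩ | ⟨i, hi, -, hx⟩ | ⟨i, hi, -, -, hx⟩ | ⟨i, hi, -, -, hx⟩
    · rw [hx, F.A_eq] at h
      push_cast at h
      have := small_dvd h (by omega) (by omega)
      omega
    · rw [hx, F.A_eq] at h
      push_cast at h
      have := small_dvd h (by omega) (by omega)
      omega
    · rw [hx] at h
      exact F.AB_ne _ _ h.symm
    · rw [hx] at h
      exact F.AB_ne _ _ h.symm
  · -- the entries are distinct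
    rw [hcard]
    intro k hk l hl h
    rcases xcases a b J hJ Y k hk with ⟨i, hi, hik, hx⟩ | ⟨i, hi, hik, hx⟩ | ⟨i, hi, hik, hik', hx⟩ | ⟨i, hi, hik, hik', hx⟩ <;>
    rcases xcases a b J hJ Y l hl with ⟨j, hj, hjl, hy⟩ | ⟨j, hj, hjl, hy⟩ | ⟨j, hj, hjl, hjl', hy⟩ | ⟨j, hj, hjl, hjl', hy⟩ <;>
    rw [hx, hy] at h
    · rw [F.A_eq] at h
      push_cast at h
      have := small_dvd h (by omega) (by omega)
      omega
    · rw [F.A_eq] at h
      push_cast at h
      have := small_dvd h (by omega) (by omega)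
      omega
    · exact absurd h (F.AB_ne _ _)
    · exact absurd h (F.AB_ne _ _)
    · rw [F.A_eq] at h
      push_cast at h
      have := small_dvd h (by omega) (by omega)
      omega
    · rw [F.A_eq] at h
      push_cast at h
      have := small_dvd h (by omega) (by omega)
      omega
    · exact absurd h (F.AB_ne _ _)
    · exact absurd h (F.AB_ne _ _)
    · exact absurd h.symm (F.AB_ne _ _)
    · exact absurd h.symm (F.AB_ne _ _)
    · rw [F.B_eq] at h
      push_cast at h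
      have := h1 (i + 1) (j + 1) (by omega) (by omega) (by omega) (by omega)
        (Dvd.dvd.trans ⟨2, by ring⟩ h)
      have : i = j := by omega
      subst this
      omega
    · rw [F.B_eq] at h
      push_cast at h
      exfalso
      refine h2 (i + 1) (j + 1) (by omega) (by omega) (by omega) (by omega) ?_
      have e : Y ((i : ℤ) + 1) + Y ((j : ℤ) + 1) - 1 = Y ((i : ℤ) + 1) - (1 - Y ((j : ℤ) + 1)) := by ring
      rw [e]; exact h
    · exact absurd h.symm (F.AB_ne _ _)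
    · exact absurd h.symm (F.AB_ne _ _)
    · rw [F.B_eq] at h
      push_cast at h
      exfalso
      refine h2 (i + 1) (j + 1) (by omega) (by omega) (by omega) (by omega) ?_
      have e : Y ((i : ℤ) + 1) + Y ((j : ℤ) + 1) - 1 = -((1 - Y ((i : ℤ) + 1)) - Y ((j : ℤ) + 1)) := by ring
      rw [e]; exact (dvd_neg.2 h)
    · rw [F.B_eq] at h
      push_cast at h
      have := h1 (i + 1) (j + 1) (by omega) (by omega) (by omega) (by omega) (by
        have e : Y ((i : ℤ) + 1) - Y ((j : ℤ) + 1) = -((1 - Y ((i : ℤ) + 1)) - (1 - Y ((j : ℤ) + 1))) := by ring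
        rw [e]; exact dvd_neg.2 (Dvd.dvd.trans ⟨2, by ring⟩ h))
      have : i = j := by omega
      subst this
      omega
  · -- the quotients are distinct
    rw [hcard]
    have hrr : (4 * (J : ℤ)) ∣ r * r - 1 := by have := F.hr; push_cast at this; exact this
    have hcop : ∀ x : ℤ, (4 * (J : ℤ)) ∣ r * x → (4 * (J : ℤ)) ∣ x := by
      intro x hx
      have h1 : (4 * (J : ℤ)) ∣ r * (r * x) := Dvd.dvd.mul_left hx r
      have h2 : (4 * (J : ℤ)) ∣ (r * r - 1) * x := Dvd.dvd.mul_right hrr x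
      have h3 := dvd_sub h1 h2
      have e : r * (r * x) - (r * r - 1) * x = x := by ring
      rwa [e] at h3
    have hodd : r % 2 = 1 := by
      obtain ⟨t, ht⟩ := hrr
      have : r * r = 4 * (J : ℤ) * t + 1 := by linarith
      have h4 : (r * r) % 2 = 1 := by
        rw [this, show 4 * (J : ℤ) * t + 1 = 1 + 2 * (2 * (J : ℤ) * t) by ring, Int.add_mul_emod_self_left]
        rfl
      rcases Int.emod_two_eq_zero_or_one r with h | h
      · exfalso
        rw [Int.mul_emod, h] at h4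
        norm_num at h4
      · exact h
    have hd2 : (2 * (J : ℤ)) ∣ 4 * (J : ℤ) := ⟨2, by ring⟩
    have h22 : (2 : ℤ) ∣ 4 * (J : ℤ) := ⟨2 * J, by ring⟩
    intro k hk l hl h
    rcases qcases a b J hJ F Y hY k hk with ⟨i, hi, hik, hx⟩ | ⟨i, hi, hik, hik', hx⟩ | ⟨i, hi, hik, hx⟩ | ⟨i, hi, hik, hx⟩ | ⟨hik, hx⟩ | ⟨hik, hx⟩ <;>
    rcases qcases a b J hJ F Y hY l hl with ⟨j, hj, hjl, hy⟩ | ⟨j, hj, hjl, hjl', hy⟩ | ⟨j, hj, hjl, hy⟩ | ⟨j, hj, hjl, hy⟩ | ⟨hjl, hy⟩ | ⟨hjl, hy⟩ <;>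
    rw [hx, hy] at h
    any_goals exact absurd h (F.AB_ne _ _)
    any_goals exact absurd h.symm (F.AB_ne _ _)
    all_goals
      first
      | rw [F.A_eq] at h
      | rw [F.B_eq] at h
      push_cast at h
    · -- 1,1
      have h6 : (2 * (J : ℤ)) ∣ (i : ℤ) - j := by
        obtain ⟨t, ht⟩ := h
        refine ⟨-t, ?_⟩
        linarith
      have := small_dvd h6 (by omega) (by omega)
      omega
    · -- 1,2
      exfalso
      have h7 := Dvd.dvd.trans h22 h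
      obtain ⟨s, hs⟩ : ∃ s, r = 2 * s + 1 := ⟨r / 2, by omega⟩
      rw [hs] at h7
      have e : -(2 * ((i : ℤ) + 1)) - (2 * s + 1) * (1 - 2 * Y ((j : ℤ) + 1)) =
        2 * (-((i : ℤ) + 1) - s * (1 - 2 * Y ((j : ℤ) + 1)) + Y ((j : ℤ) + 1)) - 1 := by ring
      rw [e] at h7
      omega
    · -- 2,1
      exfalso
      have h7 := Dvd.dvd.trans h22 h
      obtain ⟨s, hs⟩ : ∃ s, r = 2 * s + 1 := ⟨r / 2, by omega⟩
      rw [hs] at h7
      have e : (2 * s + 1) * (1 - 2 * Y ((i : ℤ) + 1)) - -(2 * ((j : ℤ) + 1)) =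
        2 * (((j : ℤ) + 1) + s * (1 - 2 * Y ((i : ℤ) + 1)) - Y ((i : ℤ) + 1)) + 1 := by ring
      rw [e] at h7
      omega
    · -- 2,2
      rw [← mul_sub] at h
      have h7 := hcop _ h
      have h8 : (2 * (J : ℤ)) ∣ Y ((i : ℤ) + 1) - Y ((j : ℤ) + 1) := by
        obtain ⟨t, ht⟩ := h7
        refine ⟨-t, ?_⟩
        linarith
      have := h1 (i + 1) (j + 1) (by omega) (by omega) (by omega) (by omega) h8
      have : i = j := by omega
      subst this
      omega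
    · -- 3,3
      have := h3 (i + 1) (j + 1) (by omega) (by omega) (by omega) (by omega) h
      have : i = j := by omega
      subst this
      omega
    · -- 3,4
      exact absurd h (h5 (i + 1) (j + 1) (by omega) (by omega) (by omega) (by omega))
    · -- 3,5
      rw [sub_zero] at h
      exact absurd (Dvd.dvd.trans hd2 h) (h4 (i + 1) (by omega) (by omega))
    · -- 3,6
      exfalso
      refine h4 (i + 1) (by omega) (by omega) ?_
      have h7 := Dvd.dvd.trans hd2 h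
      have h8 : (2 * (J : ℤ)) ∣ r * (2 * J) := Dvd.dvd.mul_left dvd_rfl r
      have := dvd_add h7 h8
      simpa using this
    · -- 4,3
      exfalso
      refine h5 (j + 1) (i + 1) (by omega) (by omega) (by omega) (by omega) ?_
      have := dvd_neg.2 h
      rwa [neg_sub] at this
    · -- 4,4
      rw [← mul_sub] at h
      have := h3 (i + 1) (j + 1) (by omega) (by omega) (by omega) (by omega) (hcop _ h)
      have : i = j := by omega
      subst this
      omega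
    · -- 4,5
      rw [sub_zero] at h
      exact absurd (Dvd.dvd.trans hd2 (hcop _ h)) (h4 (i + 1) (by omega) (by omega))
    · -- 4,6
      exfalso
      rw [← mul_sub] at h
      refine h4 (i + 1) (by omega) (by omega) ?_
      have h7 := Dvd.dvd.trans hd2 (hcop _ h)
      have := dvd_add h7 (dvd_refl (2 * (J : ℤ)))
      simpa using this
    · -- 5,3
      rw [zero_sub, dvd_neg] at h
      exact absurd (Dvd.dvd.trans hd2 h) (h4 (j + 1) (by omega) (by omega))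
    · -- 5,4
      rw [zero_sub, dvd_neg] at h
      exact absurd (Dvd.dvd.trans hd2 (hcop _ h)) (h4 (j + 1) (by omega) (by omega))
    · omega
    · -- 5,6
      exfalso
      rw [zero_sub, dvd_neg] at h
      have := small_dvd (hcop _ h) (by omega) (by omega)
      omega
    · -- 6,3
      exfalso
      refine h4 (j + 1) (by omega) (by omega) ?_
      have h7 := Dvd.dvd.trans hd2 h
      have h8 : (2 * (J : ℤ)) ∣ r * (2 * J) := Dvd.dvd.mul_left dvd_rfl r
      have := dvd_sub h8 h7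
      simpa using this
    · -- 6,4
      exfalso
      rw [← mul_sub] at h
      refine h4 (j + 1) (by omega) (by omega) ?_
      have h7 := Dvd.dvd.trans hd2 (hcop _ h)
      have := dvd_sub (dvd_refl (2 * (J : ℤ))) h7
      simpa using this
    · -- 6,5
      exfalso
      rw [sub_zero] at h
      have := small_dvd (hcop _ h) (by omega) (by omega)
      omega
    · omega

end Pool.Agent.Q100.RSeq.Semi
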